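import Pool.Agent.Lib_helper33.HOM.Defs
import Pool.Agent.Lib_helper31.PS.Base

/-!
# Local densities of the complement, from shares of all even classes
-/

set_option autoImplicit false

namespace Pool.Agent.HALF

open Pool.Agent.HOM Pool.Agent.Lib_helper31.PS Pool.Agent.Lib_helper23.PG

theorem CI_rng (D : Set ℕ) (v : ℤ) : 0 ≤ CI D v ∧ CI D v ≤ 1 := by
  unfold CI
  split_ifs <;> norm_num

theorem CI_neg (D : Set ℕ) (v : ℤ) : CI D (-v) = CI D v := by
  classical
  unfold CI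
  by_cases h : v ≠ 0 ∧ v.natAbs ∉ D
  · have h' : -v ≠ 0 ∧ (-v).natAbs ∉ D := ⟨neg_ne_zero.2 h.1, by rw [Int.natAbs_neg]; exact h.2⟩
    rw [if_pos h, if_pos h']
  · have h' : ¬ (-v ≠ 0 ∧ (-v).natAbs ∉ D) := fun h1 =>
      h ⟨neg_ne_zero.1 h1.1, by rw [← Int.natAbs_neg]; exact h1.2⟩
    rw [if_neg h, if_neg h']

theorem CI_mem (D : Set ℕ) (d : ℕ) (h : d ∈ D) : CI D (d : ℤ) = 0 := by
  classical
  unfold CI
  rw [if_neg]
  exact fun h1 => h1.2 (by rw [Int.natAbs_natCast]; exact h)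

theorem CI_not_mem (D : Set ℕ) (d : ℕ) (hd : 0 < d) (h : d ∉ D) : CI D (d : ℤ) = 1 := by
  classical
  unfold CI
  rw [if_pos]
  exact ⟨by exact_mod_cast hd.ne', by rw [Int.natAbs_natCast]; exact h⟩

/-- Windows of positive members of one class. -/
theorem pos_window {D : Set ℕ} {Q a : ℕ} (hQ : 0 < Q) (h : Share D Q a (1 / 3 / (Q : ℝ))) (η : ℝ)
    (hη : 0 < η) : ∃ L : ℕ, ∀ N : ℕ, L ≤ N → ∀ b : ℕ, 0 < b → b ≡ a [MOD Q] →
      ∑ s ∈ Finset.range N, CI D ((b + Q * s : ℕ) : ℤ) ≤ (2 / 3 + η) * N := by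
  classical
  have hQR : (0 : ℝ) < Q := by exact_mod_cast hQ
  obtain ⟨L, hL⟩ := h (η / Q) (by positivity)
  refine ⟨L, fun N hN b hb hba => ?_⟩
  have h1 := hL (Q * N) (hN.trans (Nat.le_mul_of_pos_left N hQ)) (b - 1)
  have h2 : ({d : ℕ | d ≡ a [MOD Q] ∧ d ∈ D} ∩ Set.Ioc (b - 1) (b - 1 + Q * N)).ncard ≤
      ((Finset.range N).filter fun s => b + Q * s ∈ D).card := by
    rw [← Finset.card_image_of_injective (f := fun s => b + Q * s) _ (fun s s' hs => by
      dsimp only at hs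
      exact Nat.eq_of_mul_eq_mul_left hQ (by omega)), ← Set.ncard_coe_finset]
    refine Set.ncard_le_ncard ?_ (Finset.finite_toSet _)
    rintro d ⟨⟨hda, hdD⟩, hd1, hd2⟩
    have hbd : b ≤ d := by omega
    have hmod : b ≡ d [MOD Q] := hba.trans hda.symm
    obtain ⟨s, hs⟩ := (Nat.modEq_iff_dvd' hbd).1 hmod
    have hds : d = b + Q * s := by omega
    rw [Finset.mem_coe, Finset.mem_image]
    refine ⟨s, Finset.mem_filter.2 ⟨Finset.mem_range.2 ?_, ?_⟩, hds.symm⟩
    · by_contra hsN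
      push Not at hsN
      have h3 : Q * N ≤ Q * s := Nat.mul_le_mul_left Q hsN
      omega
    · rw [← hds]
      exact hdD
  have h3 : ∑ s ∈ Finset.range N, CI D ((b + Q * s : ℕ) : ℤ) =
      N - (((Finset.range N).filter fun s => b + Q * s ∈ D).card : ℝ) := by
    have h4 : ∀ s ∈ Finset.range N, CI D ((b + Q * s : ℕ) : ℤ) =
        1 - (if b + Q * s ∈ D then (1 : ℝ) else 0) := by
      intro s _
      by_cases hs : b + Q * s ∈ D
      · rw [CI_mem D _ hs, if_pos hs]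
        norm_num
      · rw [CI_not_mem D _ (by omega) hs, if_neg hs]
        norm_num
    rw [Finset.sum_congr rfl h4, Finset.sum_sub_distrib, Finset.sum_const, Finset.card_range,
      nsmul_eq_mul, mul_one, Finset.sum_boole]
  rw [h3]
  have h5 : (({d : ℕ | d ≡ a [MOD Q] ∧ d ∈ D} ∩ Set.Ioc (b - 1) (b - 1 + Q * N)).ncard : ℝ) ≤
      (((Finset.range N).filter fun s => b + Q * s ∈ D).card : ℝ) := by exact_mod_cast h2
  have h6 : (1 / 3 / (Q : ℝ) - η / Q) * ((Q * N : ℕ) : ℝ) = (1 / 3 - η) * N := by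
    push_cast
    field_simp
  rw [h6] at h1
  linarith

/-- The same for all windows of the multiples of an even number. -/
theorem third_dn {D : Set ℕ}
    (h : ∀ q : ℕ, 0 < q → Even q → ∀ a : ℕ, Even a → Share D q a (1 / 3 / (q : ℝ)))
    (q : ℕ) (hq : 0 < q) (hq2 : Even q) (M : ℕ) (hM : 0 < M) (η : ℝ) (hη : 0 < η) :
    ∃ L : ℕ, ∀ N : ℕ, L ≤ N → ∀ x : ℤ, dn M N (fun n => CI D ((q : ℤ) * n)) x ≤ 2 / 3 + η := by
  classical
  have hQ : 0 < q * M := Nat.mul_pos hq hM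
  -- one length for all classes
  have h1 : ∃ L : ℕ, ∀ N : ℕ, L ≤ N → ∀ b : ℕ, 0 < b → Even b →
      ∑ s ∈ Finset.range N, CI D ((b + q * M * s : ℕ) : ℤ) ≤ (2 / 3 + η / 2) * N := by
    have h2 : ∀ a : ℕ, ∃ L : ℕ, Even a → ∀ N : ℕ, L ≤ N → ∀ b : ℕ, 0 < b →
        b ≡ a [MOD (q * M)] →
        ∑ s ∈ Finset.range N, CI D ((b + q * M * s : ℕ) : ℤ) ≤ (2 / 3 + η / 2) * N := by
      intro a
      by_cases ha : Even a
      · obtain ⟨L, hL⟩ := pos_window hQ (h (q * M) hQ (hq2.mul_right M) a ha) (η / 2)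
          (by positivity)
        exact ⟨L, fun _ => hL⟩
      · exact ⟨0, fun h3 => absurd h3 ha⟩
    choose Lf hLf using h2
    refine ⟨∑ a ∈ Finset.range (q * M), Lf a, fun N hN b hb hb2 => ?_⟩
    have h3 : b % (q * M) < q * M := Nat.mod_lt _ hQ
    have h4 : Lf (b % (q * M)) ≤ ∑ a ∈ Finset.range (q * M), Lf a :=
      Finset.single_le_sum (f := Lf) (fun _ _ => Nat.zero_le _) (Finset.mem_range.2 h3)
    have h5 : Even (b % (q * M)) := by
      have h6 : 2 ∣ q * M := (hq2.mul_right M).two_dvd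
      rw [even_iff_two_dvd]
      exact (Nat.dvd_mod_iff h6).2 hb2.two_dvd
    exact hLf _ h5 N (h4.trans hN) b hb (Nat.mod_modEq _ _).symm
  obtain ⟨L, hL⟩ := h1
  -- windows with positive members
  have hpos : ∀ (N : ℕ) (x : ℤ), 0 < x → ∑ s ∈ Finset.range N, CI D ((q : ℤ) * (x + (M : ℤ) * s)) ≤
      (2 / 3 + η / 2) * N + L := by
    intro N x hx
    by_cases hN : L ≤ N
    · obtain ⟨b, rfl⟩ : ∃ b : ℕ, x = b := ⟨x.toNat, (Int.toNat_of_nonneg hx.le).symm⟩
      have hb : 0 < b := by exact_mod_cast hx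
      have h2 := hL N hN (q * b) (Nat.mul_pos hq hb) (hq2.mul_right b)
      have h3 : ∀ s : ℕ, ((q * b + q * M * s : ℕ) : ℤ) = (q : ℤ) * ((b : ℤ) + (M : ℤ) * s) := by
        intro s
        push_cast
        ring
      simp only [h3] at h2
      have h4 : (0 : ℝ) ≤ L := Nat.cast_nonneg L
      linarith
    · push Not at hN
      have h2 : ∑ s ∈ Finset.range N, CI D ((q : ℤ) * (x + (M : ℤ) * s)) ≤
          ∑ _s ∈ Finset.range N, (1 : ℝ) := Finset.sum_le_sum fun s _ => (CI_rng D _).2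
      rw [Finset.sum_const, Finset.card_range, nsmul_eq_mul, mul_one] at h2
      have h3 : (N : ℝ) ≤ L := by exact_mod_cast hN.le
      have h4 : (0 : ℝ) ≤ (2 / 3 + η / 2) * N := by positivity
      linarith
  -- windows with negative members
  have hneg : ∀ (N : ℕ) (x : ℤ), x + (M : ℤ) * N ≤ 0 →
      ∑ s ∈ Finset.range N, CI D ((q : ℤ) * (x + (M : ℤ) * s)) ≤ (2 / 3 + η / 2) * N + L := by
    intro N x hx
    rcases Nat.eq_zero_or_pos N with hN | hN
    · subst hN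
      simp
    · have hMZ : (0 : ℤ) < M := by exact_mod_cast hM
      have h2 : 0 < -(x + (M : ℤ) * ((N : ℤ) - 1)) := by
        have : x + (M : ℤ) * N = x + (M : ℤ) * ((N : ℤ) - 1) + M := by ring
        omega
      have h3 := hpos N _ h2
      rw [← Finset.sum_range_reflect] at h3
      refine le_trans (le_of_eq (Finset.sum_congr rfl fun s hs => ?_)) h3
      have hs' : s < N := Finset.mem_range.1 hs
      rw [← CI_neg]
      congr 1
      have h4 : ((N - 1 - s : ℕ) : ℤ) = (N : ℤ) - 1 - s := by omega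
      rw [h4]
      ring
  -- all windows
  have hall : ∀ (N : ℕ) (x : ℤ), ∑ s ∈ Finset.range N, CI D ((q : ℤ) * (x + (M : ℤ) * s)) ≤
      (2 / 3 + η / 2) * N + (2 * L + 1) := by
    intro N x
    obtain ⟨N₀, hN₀, h2, h3⟩ : ∃ N₀ ≤ N, (∀ s < N₀, x + (M : ℤ) * s ≤ 0) ∧
        (N₀ = N ∨ 0 < x + (M : ℤ) * N₀) := by
      by_cases hex : ∃ s : ℕ, s ≤ N ∧ 0 < x + (M : ℤ) * s
      · refine ⟨Nat.find hex, (Nat.find_spec hex).1, fun s hs => ?_, Or.inr (Nat.find_spec hex).2⟩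
        have h4 := Nat.find_min hex hs
        have h5 : s ≤ N := hs.le.trans (Nat.find_spec hex).1
        by_contra h6
        push Not at h6
        exact h4 ⟨h5, h6⟩
      · push Not at hex
        exact ⟨N, le_rfl, fun s hs => hex s hs.le, Or.inl rfl⟩
    obtain ⟨N₁, rfl⟩ : ∃ N₁, N = N₀ + N₁ := ⟨N - N₀, by omega⟩
    have hL0 : (0 : ℝ) ≤ L := Nat.cast_nonneg L
    have hq1 : ∑ s ∈ Finset.range N₁, CI D ((q : ℤ) * (x + (M : ℤ) * ((N₀ + s : ℕ) : ℤ))) ≤
        (2 / 3 + η / 2) * N₁ + L := by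
      rcases h3 with h3 | h3
      · have h4 : N₁ = 0 := by omega
        subst h4
        simp
      · have h4 := hpos N₁ _ h3
        refine le_trans (le_of_eq (Finset.sum_congr rfl fun s _ => ?_)) h4
        congr 1
        push_cast
        ring
    have hq0 : ∑ s ∈ Finset.range N₀, CI D ((q : ℤ) * (x + (M : ℤ) * s)) ≤
        (2 / 3 + η / 2) * N₀ + (L + 1) := by
      rcases Nat.eq_zero_or_pos N₀ with h4 | h4
      · subst h4
        simp only [Finset.range_zero, Finset.sum_empty, Nat.cast_zero, mul_zero, zero_add]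
        positivity
      · obtain ⟨N₂, rfl⟩ : ∃ N₂, N₀ = N₂ + 1 := ⟨N₀ - 1, by omega⟩
        rw [Finset.sum_range_succ]
        have h5 := hneg N₂ x (h2 N₂ (Nat.lt_succ_self _))
        have h6 := (CI_rng D ((q : ℤ) * (x + (M : ℤ) * N₂))).2
        have h7 : (0 : ℝ) ≤ (2 / 3 + η / 2) := by positivity
        push_cast
        linarith
    rw [Finset.sum_range_add]
    push_cast at hq1 ⊢
    linarith
  obtain ⟨L', hL'⟩ := exists_nat_gt ((2 * (L : ℝ) + 1) * 2 / η)
  refine ⟨L' + 1, fun N hN x => ?_⟩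
  have hNpos : (0 : ℝ) < N := by
    have : 0 < N := by omega
    exact_mod_cast this
  have h2 := hall N x
  have h3 : (2 * (L : ℝ) + 1) ≤ η / 2 * N := by
    have h4 : (L' : ℝ) ≤ N := by
      have : L' ≤ N := by omega
      exact_mod_cast this
    have h5 : (2 * (L : ℝ) + 1) * 2 / η < N := lt_of_lt_of_le hL' h4
    rw [div_lt_iff₀ hη] at h5
    linarith
  unfold dn
  rw [inv_mul_le_iff₀ hNpos]
  have h4 : (2 / 3 + η / 2) * (N : ℝ) + η / 2 * N = N * (2 / 3 + η) := by ring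
  linarith

end Pool.Agent.HALF
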