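import Pool.Agent.Lib_helper23.HALF.Win

/-!
# Half of the multiples of every even number
-/

set_option autoImplicit false

namespace Pool.Agent.HALF

open Pool.Agent.HOM Pool.Agent.Lib_helper23.PG

/-- the statement of `HOM.half_key` for all sets with the four bin property -/
def Key (k : ℕ) : Prop := ∀ E : Set ℕ, HitsBins 4 k E →
  (∀ M : ℕ, 0 < M → ∀ η : ℝ, 0 < η → ∃ L : ℕ, ∀ N : ℕ, L ≤ N → ∀ x : ℤ,
    dn M N (fun n => CI E (2 * n)) x ≤ 2 / 3 + η) →
  ∀ m : Mn ℤ, m.Inv → m.L (fun n => CI E (2 * n)) ≤ 1 / 2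

/-- half of the multiples of every even number, if every even class contains a third -/
theorem half_even {k : ℕ} (key : Key k) {D : Set ℕ} (hD : HitsBins 4 k D)
    (h : ∀ q : ℕ, 0 < q → Even q → ∀ a : ℕ, Even a →
      Lib_helper31.PS.Share D q a (1 / 3 / (q : ℝ)))
    (q : ℕ) (hq : 0 < q) (hq2 : Even q) : Lib_helper31.PS.Share D q 0 (1 / 2 / (q : ℝ)) := by
  obtain ⟨g, rfl⟩ : ∃ g, q = g * 2 := by
    obtain ⟨g, hg⟩ := hq2
    exact ⟨g, by omega⟩
  have hg : 0 < g := by omega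
  have e : (fun n : ℤ => CI {d : ℕ | g * d ∈ D} (2 * n)) =
      fun n : ℤ => CI D (((g * 2 : ℕ) : ℤ) * n) := by
    funext n
    rw [CI_dilate D g hg]
    congr 1
    push_cast
    ring
  refine share_of_key _ hq fun m hm => ?_
  have h1 := key {d : ℕ | g * d ∈ D} (bins_dilate hD g hg) (fun M hM η hη => by
    rw [e]
    exact third_dn h _ hq hq2 M hM η hη) m hm
  rwa [e] at h1

end Pool.Agent.HALF
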