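import Pool.Agent.Lib_helper33.HOMF.DC

/-!
# The pointwise inequality with six different sizes
-/

set_option autoImplicit false

namespace Pool.Agent.HALF

open Pool.Agent.HOM

/-- `DC.six` for one step `t`, an arbitrary threshold and the four point statement for the six bad
sets as a hypothesis. -/
theorem six_gen (p : ℕ) (hp : p.Prime) (θ : ℝ) (hθ : 0 ≤ θ) (t : ℤ)
    (H G₀ G₁ F₀ F₁ F₂ : ℤ → ℝ) (hH : ∀ x, 0 ≤ H x) (hG₀ : ∀ x, 0 ≤ G₀ x)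
    (hG₁ : ∀ x, 0 ≤ G₁ x) (hF₀ : ∀ x, 0 ≤ F₀ x) (hF₁ : ∀ x, 0 ≤ F₁ x) (hF₂ : ∀ x, 0 ≤ F₂ x)
    (y u u' x x' x'' : ℤ)
    (four : ∀ S₁ S₂ S₃ S₁₂ S₁₃ S₂₃ : Finset (ZMod p), S₁.card + cnt p t θ F₀ x = p →
      S₂.card + cnt p t θ G₀ u = p → S₃.card + cnt p t θ H y = p →
      S₁₂.card + cnt p t θ F₁ x' = p → S₁₃.card + cnt p t θ F₂ x'' = p →
      S₂₃.card + cnt p t θ G₁ u' = p →
      ∃ j₁ j₂ j₃ : ZMod p, j₁ ∉ S₁ ∧ j₂ ∉ S₂ ∧ j₃ ∉ S₃ ∧ j₁ - j₂ ∉ S₁₂ ∧ j₁ - j₃ ∉ S₁₃ ∧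
        j₂ - j₃ ∉ S₂₃) :
    θ ^ 6 ≤ ∑ j₁ ∈ Finset.range p, ∑ j₂ ∈ Finset.range p, ∑ j₃ ∈ Finset.range p,
      H (y + j₃ * t) * (G₀ (u + j₂ * t) * G₁ (u' + ((j₂ : ℤ) - j₃) * t) *
        (F₀ (x + j₁ * t) * F₁ (x' + ((j₁ : ℤ) - j₂) * t) *
          F₂ (x'' + ((j₁ : ℤ) - j₃) * t))) := by
  haveI : Fact p.Prime := ⟨hp⟩
  obtain ⟨j₁, j₂, j₃, k1, k2, k3, k12, k13, k23⟩ := four
    (dc_bad p t θ F₀ x) (dc_bad p t θ G₀ u) (dc_bad p t θ H y)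
    (dc_bad p t θ F₁ x') (dc_bad p t θ F₂ x'') (dc_bad p t θ G₁ u')
    (dc_card _ _ _ _ _) (dc_card _ _ _ _ _) (dc_card _ _ _ _ _) (dc_card _ _ _ _ _)
    (dc_card _ _ _ _ _) (dc_card _ _ _ _ _)
  have l1 := (dc_not_bad _ _ _ _ _ _ k1).1
  have l2 := (dc_not_bad _ _ _ _ _ _ k2).1
  have l3 := (dc_not_bad _ _ _ _ _ _ k3).1
  have l12 := dc_diff _ _ _ _ _ _ _ k12
  have l13 := dc_diff _ _ _ _ _ _ _ k13
  have l23 := dc_diff _ _ _ _ _ _ _ k23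
  have hterm : ∀ a b c : ℕ, 0 ≤ H (y + c * t) * (G₀ (u + b * t) * G₁ (u' + ((b : ℤ) - c) * t) *
        (F₀ (x + a * t) * F₁ (x' + ((a : ℤ) - b) * t) *
          F₂ (x'' + ((a : ℤ) - c) * t))) := by
    intro a b c
    exact mul_nonneg (hH _) (mul_nonneg (mul_nonneg (hG₀ _) (hG₁ _))
      (mul_nonneg (mul_nonneg (hF₀ _) (hF₁ _)) (hF₂ _)))
  have hone : θ ^ 6 ≤ H (y + (j₃.val : ℕ) * t) * (G₀ (u + (j₂.val : ℕ) * t) *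
      G₁ (u' + (((j₂.val : ℕ) : ℤ) - (j₃.val : ℕ)) * t) *
        (F₀ (x + (j₁.val : ℕ) * t) * F₁ (x' + (((j₁.val : ℕ) : ℤ) - (j₂.val : ℕ)) * t) *
          F₂ (x'' + (((j₁.val : ℕ) : ℤ) - (j₃.val : ℕ)) * t))) := by
    have e6 : θ ^ 6 = θ * (θ * θ * (θ * θ * θ)) := by ring
    rw [e6]
    have hn2 : 0 ≤ θ * θ := mul_nonneg hθ hθ
    have hn3 : 0 ≤ θ * θ * θ := mul_nonneg hn2 hθ
    apply mul_le_mul l3 _ (mul_nonneg hn2 hn3) (hH _)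
    apply mul_le_mul _ _ hn3 (mul_nonneg (hG₀ _) (hG₁ _))
    · exact mul_le_mul l2 l23 hθ (hG₀ _)
    · apply mul_le_mul _ l13 hθ (mul_nonneg (hF₀ _) (hF₁ _))
      exact mul_le_mul l1 l12 hθ (hF₀ _)
  refine hone.trans ?_
  have m1 : j₁.val ∈ Finset.range p := Finset.mem_range.2 (ZMod.val_lt _)
  have m2 : j₂.val ∈ Finset.range p := Finset.mem_range.2 (ZMod.val_lt _)
  have m3 : j₃.val ∈ Finset.range p := Finset.mem_range.2 (ZMod.val_lt _)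
  refine le_trans ?_ (Finset.single_le_sum (f := fun a : ℕ => ∑ j₂ ∈ Finset.range p,
    ∑ j₃ ∈ Finset.range p,
      H (y + j₃ * t) * (G₀ (u + j₂ * t) * G₁ (u' + ((j₂ : ℤ) - j₃) * t) *
        (F₀ (x + a * t) * F₁ (x' + ((a : ℤ) - j₂) * t) *
          F₂ (x'' + ((a : ℤ) - j₃) * t)))) (fun a _ => Finset.sum_nonneg fun b _ =>
            Finset.sum_nonneg fun c _ => hterm a b c) m1)
  refine le_trans ?_ (Finset.single_le_sum (f := fun b : ℕ =>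
    ∑ j₃ ∈ Finset.range p,
      H (y + j₃ * t) * (G₀ (u + b * t) * G₁ (u' + ((b : ℤ) - j₃) * t) *
        (F₀ (x + (j₁.val : ℕ) * t) * F₁ (x' + (((j₁.val : ℕ) : ℤ) - b) * t) *
          F₂ (x'' + (((j₁.val : ℕ) : ℤ) - j₃) * t)))) (fun b _ =>
            Finset.sum_nonneg fun c _ => hterm _ b c) m2)
  exact Finset.single_le_sum (f := fun c : ℕ =>
      H (y + c * t) * (G₀ (u + (j₂.val : ℕ) * t) * G₁ (u' + (((j₂.val : ℕ) : ℤ) - c) * t) *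
        (F₀ (x + (j₁.val : ℕ) * t) * F₁ (x' + (((j₁.val : ℕ) : ℤ) - (j₂.val : ℕ)) * t) *
          F₂ (x'' + (((j₁.val : ℕ) : ℤ) - c) * t)))) (fun c _ => hterm _ _ c) m3

end Pool.Agent.HALF
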