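import Pool.Agent.Lib_helper33.HOMF.ZB
import Pool.Agent.Lib_helper23.HALF.Dn

/-!
# From invariant means to long windows
-/

set_option autoImplicit false

namespace Pool.Agent.HALF

open Pool.Agent.HOM Pool.Agent.Lib_helper31.PS Pool.Agent.Lib_helper23.PG

/-- the multiples of `q` in `(x, x + n]` -/
theorem window_div {q : ℕ} (hq : 0 < q) (x n : ℕ) :
    (n : ℝ) / q - 1 ≤ (((x + n) / q - x / q : ℕ) : ℝ) ∧
      (((x + n) / q - x / q : ℕ) : ℝ) ≤ (n : ℝ) / q + 1 := by
  have hqR : (0 : ℝ) < q := by exact_mod_cast hq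
  have hle : x / q ≤ (x + n) / q := Nat.div_le_div_right (Nat.le_add_right x n)
  rw [Nat.cast_sub hle]
  have h1 : ((x / q : ℕ) : ℝ) ≤ x / q := Nat.cast_div_le
  have h2 : (((x + n) / q : ℕ) : ℝ) ≤ ((x + n : ℕ) : ℝ) / q := Nat.cast_div_le
  have h3 : (x : ℝ) / q < (x / q : ℕ) + 1 := by
    rw [div_lt_iff₀ hqR]
    have h4 : x < q * (x / q + 1) := by
      have := Nat.div_add_mod x q
      have := Nat.mod_lt x hq
      nlinarith
    have h5 : (x : ℝ) < q * ((x / q : ℕ) + 1) := by exact_mod_cast h4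
    linarith
  have h6 : ((x + n : ℕ) : ℝ) / q < ((x + n) / q : ℕ) + 1 := by
    rw [div_lt_iff₀ hqR]
    have h4 : x + n < q * ((x + n) / q + 1) := by
      have := Nat.div_add_mod (x + n) q
      have := Nat.mod_lt (x + n) hq
      nlinarith
    have h5 : ((x + n : ℕ) : ℝ) < q * (((x + n) / q : ℕ) + 1) := by exact_mod_cast h4
    linarith
  have h7 : ((x + n : ℕ) : ℝ) / q = x / q + n / q := by
    push_cast
    ring
  constructor <;> linarith

/-- The four bin property is inherited by `{d | g * d ∈ D}` (a copy of `HOM.bins_dilate`). -/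
theorem bins_dilate {D : Set ℕ} {k : ℕ} (hD : HitsBins 4 k D) (g : ℕ) (hg : 0 < g) :
    HitsBins 4 k {d : ℕ | g * d ∈ D} := by
  classical
  intro H hHk hdis hadm
  have hinj : Function.Injective fun y : ℕ => g * y := fun a b hab =>
    Nat.eq_of_mul_eq_mul_left hg hab
  obtain ⟨i, j, hij, a, ha, b, hb, hab, hDab⟩ := hD (fun i => (H i).image fun y => g * y)
    (fun i => by rw [Finset.card_image_of_injective _ hinj, hHk])
    (fun i j hij => by
      rw [Finset.disjoint_left]
      intro u hu hv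
      obtain ⟨y, hy, rfl⟩ := Finset.mem_image.1 hu
      obtain ⟨z, hz, hyz⟩ := Finset.mem_image.1 hv
      rw [hinj hyz] at hz
      exact Finset.disjoint_left.1 (hdis i j hij) hy hz)
    (by
      intro p hp
      by_cases hpg : p ∣ g
      · refine ⟨1, fun h hh hmod => ?_⟩
        obtain ⟨i, -, hi⟩ := Finset.mem_biUnion.1 hh
        obtain ⟨y, hy, rfl⟩ := Finset.mem_image.1 hi
        have h2 : 1 ≡ 0 [MOD p] := hmod.symm.trans ((Nat.modEq_zero_iff_dvd).2 (hpg.mul_right y))
        exact hp.one_lt.ne' (Nat.dvd_one.1 ((Nat.modEq_zero_iff_dvd).1 h2))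
      · obtain ⟨r, hr⟩ := hadm p hp
        refine ⟨g * r, fun h hh hmod => ?_⟩
        obtain ⟨i, -, hi⟩ := Finset.mem_biUnion.1 hh
        obtain ⟨y, hy, rfl⟩ := Finset.mem_image.1 hi
        exact hr y (Finset.mem_biUnion.2 ⟨i, Finset.mem_univ i, hy⟩)
          (Nat.ModEq.cancel_left_of_coprime ((Nat.coprime_comm.1
            ((Nat.Prime.coprime_iff_not_dvd hp).2 hpg)) |> fun h => by
              rw [Nat.Coprime] at h; rw [Nat.gcd_comm]; exact h) hmod))
  obtain ⟨y, hy, rfl⟩ := Finset.mem_image.1 ha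
  obtain ⟨z, hz, rfl⟩ := Finset.mem_image.1 hb
  refine ⟨i, j, hij, y, hy, z, hz, ?_, ?_⟩
  · exact lt_of_mul_lt_mul_left hab (Nat.zero_le g)
  · rw [Set.mem_ofPred_eq, Nat.mul_sub]
    exact hDab

/-- the dilated indicator -/
theorem CI_dilate (D : Set ℕ) (g : ℕ) (hg : 0 < g) (v : ℤ) :
    CI {d : ℕ | g * d ∈ D} v = CI D ((g : ℤ) * v) := by
  classical
  have hgZ : (g : ℤ) ≠ 0 := by exact_mod_cast hg.ne'
  have h1 : ((g : ℤ) * v).natAbs = g * v.natAbs := by
    rw [Int.natAbs_mul, Int.natAbs_natCast]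
  unfold CI
  by_cases h : v ≠ 0 ∧ v.natAbs ∉ {d : ℕ | g * d ∈ D}
  · rw [if_pos h, if_pos ⟨mul_ne_zero hgZ h.1, by rw [h1]; exact h.2⟩]
  · rw [if_neg h, if_neg]
    rintro ⟨h2, h3⟩
    rw [h1] at h3
    exact h ⟨fun h4 => h2 (by rw [h4, mul_zero]), h3⟩

/-- From invariant means to windows of the multiples of `q`. -/
theorem share_of_key {D : Set ℕ} (q : ℕ) (hq : 0 < q)
    (hkey : ∀ m : Mn ℤ, m.Inv → m.L (fun n => CI D ((q : ℤ) * n)) ≤ 1 / 2) :
    Lib_helper31.PS.Share D q 0 (1 / 2 / (q : ℝ)) := by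
  classical
  have hqR : (0 : ℝ) < q := by exact_mod_cast hq
  by_contra hcon
  unfold Lib_helper31.PS.Share at hcon
  push Not at hcon
  obtain ⟨e, he, hcon⟩ := hcon
  obtain ⟨m, hm, hmf⟩ := mean_of_windows (fun x : ℤ => CI D ((q : ℤ) * x))
    (Bd.of_mem_Icc (a := 0) (b := 1) fun x => CI_rng D _) (1 / 2 + e * q / 2) (fun L => by
      obtain ⟨T, hT⟩ := exists_nat_gt (2 / e)
      obtain ⟨n, hn, x, hlt⟩ := hcon (q * (L + 2) + T)
      obtain ⟨hw1, hw2⟩ := window_div hq x n
      set N := (x + n) / q - x / q with hN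
      have hn1 : ((q * (L + 2) + T : ℕ) : ℝ) ≤ n := by exact_mod_cast hn
      have hT0 : (0 : ℝ) ≤ T := Nat.cast_nonneg T
      have hn2 : ((L : ℝ) + 2) ≤ n / q := by
        rw [le_div_iff₀ hqR]
        push_cast at hn1
        linarith
      have hNL : L + 1 ≤ N := by
        have h3 : ((L + 1 : ℕ) : ℝ) ≤ N := by
          push_cast
          linarith
        exact_mod_cast h3
      refine ⟨((x / q + 1 : ℕ) : ℤ), N, by omega, by omega, ?_⟩
      -- the multiples of `q` in the window
      have h5 : ((Finset.range N).filter fun j => q * (x / q + 1 + j) ∈ D).card ≤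
          ({d : ℕ | d ≡ 0 [MOD q] ∧ d ∈ D} ∩ Set.Ioc x (x + n)).ncard := by
        rw [← Finset.card_image_of_injective (f := fun j => q * (x / q + 1 + j)) _
          (fun j j' hj => by
            exact Nat.add_left_cancel (Nat.eq_of_mul_eq_mul_left hq hj)),
          ← Set.ncard_coe_finset]
        refine Set.ncard_le_ncard ?_ ((Set.finite_Ioc _ _).inter_of_right _)
        intro d hd
        obtain ⟨j, hj, rfl⟩ := Finset.mem_image.1 (Finset.mem_coe.1 hd)
        obtain ⟨hj1, hj2⟩ := Finset.mem_filter.1 hj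
        have hj3 : j < N := Finset.mem_range.1 hj1
        refine ⟨⟨(Nat.modEq_zero_iff_dvd).2 (Dvd.intro _ rfl), hj2⟩, ?_, ?_⟩
        · show x < q * (x / q + 1 + j)
          have := Nat.div_add_mod x q
          have := Nat.mod_lt x hq
          nlinarith
        · show q * (x / q + 1 + j) ≤ x + n
          have h6 : x / q + 1 + j ≤ (x + n) / q := by omega
          exact (Nat.mul_le_mul_left q h6).trans (Nat.mul_div_le _ _)
      have h6 : ∑ j ∈ Finset.range N, CI D ((q : ℤ) * (((x / q + 1 : ℕ) : ℤ) + j)) =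
          N - (((Finset.range N).filter fun j => q * (x / q + 1 + j) ∈ D).card : ℝ) := by
        have h7 : ∀ j ∈ Finset.range N, CI D ((q : ℤ) * (((x / q + 1 : ℕ) : ℤ) + j)) =
            1 - (if q * (x / q + 1 + j) ∈ D then (1 : ℝ) else 0) := by
          intro j _
          have h8 : (q : ℤ) * (((x / q + 1 : ℕ) : ℤ) + j) = ((q * (x / q + 1 + j) : ℕ) : ℤ) := by
            push_cast
            ring
          rw [h8]
          by_cases hj : q * (x / q + 1 + j) ∈ D
          · rw [CI_mem D _ hj, if_pos hj]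
            norm_num
          · rw [CI_not_mem D _ (Nat.mul_pos hq (by positivity)) hj, if_neg hj]
            norm_num
        rw [Finset.sum_congr rfl h7, Finset.sum_sub_distrib, Finset.sum_const, Finset.card_range,
          nsmul_eq_mul, mul_one, Finset.sum_boole]
      rw [h6]
      have h7 : (((Finset.range N).filter fun j => q * (x / q + 1 + j) ∈ D).card : ℝ) ≤
          (({d : ℕ | d ≡ 0 [MOD q] ∧ d ∈ D} ∩ Set.Ioc x (x + n)).ncard : ℝ) := by
        exact_mod_cast h5
      have h8 : 2 / e < n := by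
        push_cast at hn1
        have h9 : (0 : ℝ) ≤ q * (L + 2) := by positivity
        linarith
      have h9 : 2 < n * e := by
        rwa [div_lt_iff₀ he] at h8
      -- `n ≤ q (N + 1)` and `N q ≤ n + q`
      have h10 : (n : ℝ) ≤ q * (N + 1) := by
        have : (n : ℝ) / q ≤ N + 1 := by linarith
        rw [div_le_iff₀ hqR] at this
        linarith
      have h11 : (q : ℝ) * N ≤ n + q := by
        have h12 : (q : ℝ) * N ≤ q * (n / q + 1) := mul_le_mul_of_nonneg_left hw2 hqR.le
        have h13 : (q : ℝ) * (n / q + 1) = n + q := by field_simp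
        linarith
      have h12 : (1 / 2 / (q : ℝ) - e) * n = n / q / 2 - e * n := by ring
      rw [h12] at hlt
      have h13 : (n : ℝ) / q ≤ N + 1 := by linarith
      have h14 : (T : ℝ) ≤ n - q := by
        push_cast at hn1
        have h15 : (q : ℝ) * (L + 2) = q * L + 2 * q := by ring
        have h16 : (0 : ℝ) ≤ q * L := by positivity
        linarith
      have h15 : 2 < e * (n - q) := by
        have h16 : 2 / e < n - q := lt_of_lt_of_le hT h14
        rw [div_lt_iff₀ he] at h16
        linarith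
      have h16 : e * (q * N) ≤ e * (n + q) := mul_le_mul_of_nonneg_left h11 he.le
      have h17 : (1 / 2 + e * q / 2) * (N : ℝ) = N / 2 + e * (q * N) / 2 := by ring
      rw [h17]
      have h18 : e * (n + q) = 2 * (e * n) - e * (n - q) := by ring
      linarith)
  have h2 := hkey m hm
  have h3 : 0 < e * q := by positivity
  linarith

end Pool.Agent.HALF
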